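import Mathlib
import Pool.Agent.P.MP_958dc4_gt.Core

set_option autoImplicit false

universe u

namespace Pool.Agent.Results.MP_958dc4_gt.NotHomeo

/-- `μ : X → R` is a `K`-reflection of the space `X`. -/
def IsReflection (K : ∀ (X : Type u) [TopologicalSpace X], Prop) {X R : Type u}
    [TopologicalSpace X] [TopologicalSpace R] (μ : X → R) : Prop :=
  K R ∧ Continuous μ ∧
    ∀ (Y : Type u) [TopologicalSpace Y], K Y → ∀ f : X → Y, Continuous f →
      ∃! g : R → Y, Continuous g ∧ g ∘ μ = f

/-- `K` is adequate: for every T0 space `X`, the closed `K`-determined subsets of `X` with the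
lower Vietoris topology form a `K`-space. -/
def Adequate (K : ∀ (X : Type u) [TopologicalSpace X], Prop) : Prop :=
  ∀ (X : Type u) [TopologicalSpace X], T0Space X →
    @K {A : Set X // IsClosed A ∧ ∀ (Y : Type u) [TopologicalSpace Y], K Y →
          ∀ f : X → Y, Continuous f → ∃! y : Y, closure (f '' A) = closure {y}}
      (TopologicalSpace.generateFrom
        {S | ∃ U : Set X, IsOpen U ∧ S = {A | (A.1 ∩ U).Nonempty}})

open Pool.Agent.P.MP_958dc4_gt in
theorem result :
    ∃ K : ∀ (X : Type u) [TopologicalSpace X], Prop,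
      (∀ (X : Type u) [TopologicalSpace X], K X → T0Space X) ∧
      (∀ (X : Type u) [TopologicalSpace X], T0Space X → QuasiSober X → K X) ∧
      (∀ (X Y : Type u) [TopologicalSpace X] [TopologicalSpace Y], (X ≃ₜ Y) → K X → K Y) ∧
      Adequate K ∧
      ∃ (X : ℕ → Type u) (_ : ∀ n, TopologicalSpace (X n)), (∀ n, T0Space (X n)) ∧
        ∃ (R : ℕ → Type u) (_ : ∀ n, TopologicalSpace (R n)) (η : ∀ n, X n → R n)
          (P : Type u) (_ : TopologicalSpace P) (μ : (∀ n, X n) → P),
          (∀ n, IsReflection K (η n)) ∧ IsReflection K μ ∧ IsEmpty (P ≃ₜ ∀ n, R n) := by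
  let K : ∀ (X : Type u) [TopologicalSpace X], Prop := fun Y _ => KK Y
  have hK : ∀ (Y : Type u) [TopologicalSpace Y], K Y → T0Space Y := fun Y _ hY => hY.1
  refine ⟨K, hK, KK_of_sober, KK_homeo, fun X _ _ => KK_adequate X, XX, inferInstance, XX_t0,
    fun n => PH K (XX n), fun n => phTop K (XX n), fun n => eta hK,
    PH K (∀ n, XX n), phTop K _, eta hK,
    fun n => ⟨KK_adequate _, eta_continuous hK,
      fun Y _ hY f hf => ph_universal hK (KK_adequate _) Y hY f hf⟩,
    ⟨KK_adequate _, eta_continuous hK,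
      fun Y _ hY f hf => ph_universal hK (KK_adequate _) Y hY f hf⟩, ⟨fun e => ?_⟩⟩
  let : ∀ n, TopologicalSpace (PH K (XX n)) := fun n => phTop K (XX n)
  let : TopologicalSpace (PH K (∀ n, XX n)) := phTop K _
  obtain ⟨g, ⟨hg, hgf⟩, -⟩ := ph_universal hK (KK_adequate (∀ n, XX n)) BB BB_KK ff ff_continuous
  refine ff_unbounded (g (e.symm topPH)) fun x => ?_
  rw [← hgf]
  refine Specializes.map ?_ hg
  have h : (topPH : ∀ n, PH K (XX n)) ⤳ e (eta hK x) :=
    specializes_pi.2 fun n => topPH_specializes n _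
  simpa using h.map e.symm.continuous

end Pool.Agent.Results.MP_958dc4_gt.NotHomeo
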